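import Pool.Agent.Work.MP_f6f6d4_al.McLain
import Pool.Agent.Work.MP_f6f6d4_al.Diagonal

set_option autoImplicit false

/-!
# A characteristically simple non-FCR group whose diagonal groups preserve a Cartesian lattice
-/

namespace Pool.Agent.Results.MP_f6f6d4_al.McLainPower

open Pool.Agent.Work.MP_f6f6d4_al

theorem nontrivial_A : Nontrivial A := by
  refine ⟨⟨t 0 1 (by norm_num), t_mem _ _ _⟩, 1, ?_⟩
  intro h
  exact t_ne_one 0 1 (by norm_num) (congrArg Subtype.val h)

theorem charSimple_A : IsCharSimple A := ⟨nontrivial_A, fun N hN => charSimple N hN⟩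

/-- There is a non-abelian characteristically simple group `T` (the square of the McLain group),
neither simple nor an FCR-group, such that for every `m > 1` the diagonal group `D(T, m)` preserves
a Cartesian lattice. -/
theorem result : ∃ (T : Type) (_ : Group T), IsCharSimple T ∧ (∃ x y : T, x * y ≠ y * x) ∧
    ¬ IsSimpleGroup T ∧ ¬ IsFCR T ∧
      ∀ m : ℕ, 1 < m → PreservesCartesianLattice (diagonalGroup T m) := by
  classical
  have := nontrivial_A
  have hcen : Subgroup.center A = ⊥ := center_eq_bot
  have hmeet : NormalMeet A := fun M N hM hN h1 h2 => inf_ne_bot M N hM hN h1 h2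
  refine ⟨Fin 2 → A, inferInstance, charSimple_pow hcen charSimple_A (by norm_num), ?_, ?_, ?_,
    fun m hm => preserves hcen hmeet le_rfl (by omega)⟩
  · -- non-abelian
    by_contra hcon
    push Not at hcon
    have h1 : Subgroup.center A = ⊤ := by
      rw [eq_top_iff]
      intro a _
      rw [Subgroup.mem_center_iff]
      intro b
      exact congrFun (hcon (fun _ => b) (fun _ => a)) 0
    rw [hcen] at h1
    exact bot_ne_top h1
  · -- not simple
    intro hs
    let N : Subgroup (Fin 2 → A) := (Pi.evalMonoidHom (fun _ : Fin 2 => A) 0).ker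
    have hmem : ∀ x, x ∈ N ↔ x 0 = 1 := fun x => MonoidHom.mem_ker
    obtain ⟨a, ha⟩ := exists_ne (1 : A)
    rcases hs.eq_bot_or_eq_top_of_normal N inferInstance with h | h
    · have h1 : (Pi.mulSingle 1 a : Fin 2 → A) ∈ N := by
        rw [hmem]; simp
      rw [h, Subgroup.mem_bot] at h1
      have h2 := congrFun h1 1
      exact ha (by simpa using h2)
    · have h1 : (Pi.mulSingle 0 a : Fin 2 → A) ∈ N := by rw [h]; trivial
      rw [hmem] at h1
      exact ha (by simpa using h1)
  · -- not FCR
    rintro ⟨S, _, k, _, hS, hab, ⟨φ⟩⟩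
    have hfin := finite_normal hS hab k
    -- infinitely many normal subgroups
    let F : ℚ → {N : Subgroup (Fin k → S) // N.Normal} := fun q =>
      ⟨((NN q).comap (Pi.evalMonoidHom (fun _ : Fin 2 => A) 0)).comap φ.symm.toMonoidHom,
        Subgroup.Normal.comap (Subgroup.Normal.comap inferInstance _) _⟩
    have hF : Function.Injective F := by
      intro q q' h
      apply NN_injective
      have h1 : ((NN q).comap (Pi.evalMonoidHom (fun _ : Fin 2 => A) 0)).comap
          φ.symm.toMonoidHom = ((NN q').comap (Pi.evalMonoidHom (fun _ : Fin 2 => A) 0)).comap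
          φ.symm.toMonoidHom := congrArg Subtype.val h
      have h2 := Subgroup.comap_injective (f := φ.symm.toMonoidHom) φ.symm.surjective h1
      exact Subgroup.comap_injective (f := Pi.evalMonoidHom (fun _ : Fin 2 => A) 0)
        (Function.surjective_eval 0) h2
    exact not_injective_infinite_finite F hF

end Pool.Agent.Results.MP_f6f6d4_al.McLainPower
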